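import Pool.Agent.Lib.Pf91712c.FinC

/-!
The A[2]-complete problem to decide whether `kk k` vertices of a graph dominate all cliques with `ll k`
vertices: for every constant `c` and list size `t` with `ll ≤ c * t`, the case that `kk k` vertices suffice
and the case that even `t k * kk k` vertices do not suffice are separated by an fpt Turing reduction to
counting the satisfying assignments of weight `k` of formulas in conjunctive normal form, a problem in
`#W[2]`.
-/

set_option autoImplicit false

namespace Pool.Agent.Results.MP_f91712_lc.CliqueDominatingSets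

open Pool.Agent.Lib.Pf91712q (FptTuring)
open Pool.Agent.Lib.Pf91712c

theorem result (kk ll t : ℕ → ℕ) (c : ℕ) (hkk : Computable kk) (hll : Computable ll)
    (ht : Computable t) (hl1 : ∀ k, 1 ≤ ll k) (ht1 : ∀ k, 1 ≤ t k) (hc : ∀ k, ll k ≤ c * t k) :
    ∃ F ∈ SharpW2, FptTuring F (fun x k => CDS x (kk k) (ll k))
      (fun x k => ¬ CDS x (t k * kk k) (ll k)) :=
  mainC kk ll t c hkk hll ht hl1 ht1 hc

end Pool.Agent.Results.MP_f91712_lc.CliqueDominatingSets
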