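import Pool.Agent.Lib.Pf91712n.DiagN
import Pool.Agent.Lib.Pf91712s.Fin
import Pool.Agent.Lib.Pf91712q.Bar

/-!
The number of guess bits in Toda's theorem at level two is `(log n)²`.

1. Relative to every oracle `O` (also the empty one) every problem with two quantifier blocks and a
matrix in `P` (these contain `A[2]`) is fpt Turing reducible to a function counting the accepting
guesses of `h k * (log n)²` bits.
2. Let `L 0, L 1, ...` be functions with `L i m = o(m²)`. There is one oracle `O` relative to which the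
parameterized `Σ₂` problem `∃ u₁ ... u_k ∀ v₁ ... v_k R(u, v)` (numbers with `log n` binary digits, the
relation `R` given by the oracle) is not fpt Turing reducible to any function in `#W[P]` relative to
`O` (`h k * log n` guess bits), nor to any function counting the accepting guesses of
`h k * L i (log n)` bits of an oracle machine with running time `f k * (n + 1) ^ c`, not even by
co-nondeterministic reductions with polynomially many universal guess bits. More precisely, for every
such function `F` and every exponent `c`, all slices with large `k` cannot be decided in time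
`a * (n + 1) ^ c` with `b * (n + 1) ^ c` universal guess bits and with queries to `O` and to `F` with
parameter at most `g`, whatever `a`, `b` and `g` are.
-/

namespace Pool.Agent.Results.MP_f91712_lc.LimitedGuesses

open Pool.Agent.Lib.Pa76659
open Pool.Agent.Lib.Pf91712 (SigmaTwo SharpWP)
open Pool.Agent.Lib.Pf91712g (SharpL)
open Pool.Agent.Lib.Pf91712n (SolvesAll)
open Pool.Agent.Lib.Pf91712p (AltClass)
open Pool.Agent.Lib.Pf91712s (SharpC)

theorem result :
    (∀ (O : Lang), ∀ P ∈ AltClass O 2, ∃ F ∈ SharpC (fun m => m ^ 2) O,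
      Pool.Agent.Lib.Pf91712q.FptTuring F P (fun x k => ¬ P x k)) ∧
    ∀ L : ℕ → ℕ → ℕ, (∀ i C : ℕ, ∃ m₀ : ℕ, ∀ m, m₀ ≤ m → C * L i m ≤ m ^ 2) →
      ∃ O : Lang, SigmaTwo O ∈ AltClass O 2 ∧
        (∀ F ∈ SharpWP O,
          ¬ Pool.Agent.Lib.Pf91712.FptTuring O F (SigmaTwo O) ∧
          ∀ c : ℕ, ∃ K : ℕ, ∀ k, K ≤ k → ∀ (M : Prog) (a b g : ℕ),
            ¬ SolvesAll O F (SigmaTwo O) M a b g c k) ∧
        ∀ i : ℕ, ∀ F ∈ SharpL (L i) O,
          ¬ Pool.Agent.Lib.Pf91712.FptTuring O F (SigmaTwo O) ∧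
          ∀ c : ℕ, ∃ K : ℕ, ∀ k, K ≤ k → ∀ (M : Prog) (a b g : ℕ),
            ¬ SolvesAll O F (SigmaTwo O) M a b g c k := by
  refine ⟨fun O P hP => Pool.Agent.Lib.Pf91712s.main O P hP, fun L hL => ?_⟩
  have hid : Pool.Agent.Lib.Pf91712x.SmallX fun m => m := by
    intro C
    refine ⟨C, fun m hm => ?_⟩
    calc C * m ≤ m * m := Nat.mul_le_mul_right _ hm
      _ = m ^ 2 := by ring
  obtain ⟨O, hO⟩ := Pool.Agent.Lib.Pf91712n.diagN (fun i => Nat.casesOn i (fun m => m) L) (by
    intro i
    cases i with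
    | zero => exact hid
    | succ i => exact hL i)
  have key : ∀ i, ∀ F ∈ SharpL (Nat.casesOn (motive := fun _ => ℕ → ℕ) i (fun m => m) L) O,
      ¬ Pool.Agent.Lib.Pf91712.FptTuring O F (SigmaTwo O) ∧
        ∀ c : ℕ, ∃ K : ℕ, ∀ k, K ≤ k → ∀ (M : Prog) (a b g : ℕ),
          ¬ SolvesAll O F (SigmaTwo O) M a b g c k := by
    intro i F hF
    refine ⟨?_, hO i F hF⟩
    rintro ⟨M, f, g, c, h⟩
    obtain ⟨K, hK⟩ := hO i F hF c
    apply hK K le_rfl M (f K) 0 (g K)
    intro x
    obtain ⟨h1, h2⟩ := h K x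
    simp only [zero_mul, List.length_eq_zero_iff, forall_eq]
    exact ⟨h1, h2⟩
  exact ⟨O, Pool.Agent.Lib.Pf91712q.sigma_mem O, fun F hF => key 0 F hF,
    fun i F hF => key (i + 1) F hF⟩

end Pool.Agent.Results.MP_f91712_lc.LimitedGuesses
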