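import Pool.Agent.Lib.Pf91712q.Thr

/-!
The list gap version of the parameterized `Σ₂` problem: an instance has strings `u` and tests `v` of
`h k` blocks of `log n` bits and a relation in `P`. Yes-instance: some `u` passes all tests.
No-instance: every list of `t k` strings `u` fails a common test `v`.

Relative to every oracle, these promise problems are fpt Turing reducible to `#W[P]` if and only if the
ratio `h / t` is bounded or the whole level `Σ₂` (which contains `A[2]`) is fpt Turing reducible to
`#W[P]`. The second alternative fails relative to some oracle.
-/

set_option autoImplicit false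

namespace Pool.Agent.Results.MP_f91712_lc.ListGapThreshold

open Pool.Agent.Lib.Pa76659 (Lang)
open Pool.Agent.Lib.Pf91712q

theorem result :
    (∀ (O : Lang) (h t : ℕ → ℕ), Computable h → Computable t → (∀ k, 1 ≤ t k) →
      (ListGap O h t ↔ (∃ c, ∀ k, h k ≤ c * t k) ∨ LevelTwo O)) ∧
    ∃ O : Lang, ¬ LevelTwo O :=
  ⟨fun O h t hh ht ht1 => threshold O h t hh ht ht1, exists_not_levelTwo⟩

end Pool.Agent.Results.MP_f91712_lc.ListGapThreshold
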