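import Pool.Agent.Lib.Pf91712p.Fin

/-!
There is an oracle `O` relative to which the parameterized analogue of Toda's theorem holds in a very
strong form, although the hierarchy of the alternation levels is infinite:

* every problem in `AW[P]` relative to `O` (the number of the quantifier blocks depends on the
  parameter, the matrix is decided in polynomial time with the oracle) is the parity of one function
  in `#W[1]` relative to `O`;
* for every `t` the oracle form `SigmaRel O (t + 1)` of `p`-MC(`Σ_{t+1}`) has `t + 1` quantifier
  blocks, but it has no representation with `t` blocks, not even nonuniformly, for any large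
  value of the parameter.
-/

set_option autoImplicit false

namespace Pool.Agent.Results.MP_f91712_lc.PositiveWorld

open Pool.Agent.Lib.Pa76659 (Str Lang PO)
open Pool.Agent.Lib.Pa76659G (pr)
open Pool.Agent.Lib.Pf91712p

theorem result : ∃ O : Lang,
    (∀ L ∈ AWP O, ∃ F ∈ SharpW1 O, ∀ x k, L x k ↔ Odd (F x k)) ∧
    (∀ t, SigmaRel O t ∈ AltClass O t) ∧
    ∀ (t : ℕ) (B : Lang), B ∈ PO O → ∃ k0 : ℕ, ∀ k ≥ k0, ∀ (a : Str) (b : ℕ),
      ∃ x : Str, ¬ (SigmaRel O (t + 1) x k ↔
        Alt (b * lg x) t true (fun w => B (pr x (pr a w)) = true) []) :=
  final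

end Pool.Agent.Results.MP_f91712_lc.PositiveWorld
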